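import Pool.Agent.N325.DD.UB

/-!
# DD3/A (helper67 for helper325): the upper bound by the classes modulo 2 and 3
-/

set_option autoImplicit false

namespace Pool.Agent.N67.DD

open Finset Pool.Agent.N325.DD

/-- every positive integer is the product of an integer with all prime factors at least `K` and one
with all prime factors less than `K` (copied from helper627) -/
theorem decomp (K a : ℕ) : a ≠ 0 → ∃ m s, a = m * s ∧ m ≠ 0 ∧ s ≠ 0 ∧
    (∀ p : ℕ, p.Prime → p ∣ m → K ≤ p) ∧ ∀ p : ℕ, p.Prime → p ∣ s → p < K := by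
  induction a using induction_on_primes with
  | zero => exact fun h => absurd rfl h
  | one =>
    intro _
    exact ⟨1, 1, rfl, one_ne_zero, one_ne_zero,
      fun p hp h => absurd (Nat.dvd_one.1 h) hp.one_lt.ne',
      fun p hp h => absurd (Nat.dvd_one.1 h) hp.one_lt.ne'⟩
  | prime_mul q b hq ih =>
    intro hb
    have hb0 : b ≠ 0 := fun h => hb (by rw [h, mul_zero])
    obtain ⟨m, s, h1, hm, hs, h2, h3⟩ := ih hb0
    rcases le_or_gt K q with hK | hK
    · refine ⟨q * m, s, by rw [h1, mul_assoc], mul_ne_zero hq.ne_zero hm, hs, fun p hp h => ?_, h3⟩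
      rcases (hp.dvd_mul).1 h with h | h
      · rwa [(Nat.prime_dvd_prime_iff_eq hp hq).1 h]
      · exact h2 p hp h
    · refine ⟨m, q * s, by rw [h1]; ring, hm, mul_ne_zero hq.ne_zero hs, h2, fun p hp h => ?_⟩
      rcases (hp.dvd_mul).1 h with h | h
      · rwa [(Nat.prime_dvd_prime_iff_eq hp hq).1 h]
      · exact h3 p hp h

/-- the bound by the classes, for general `K` -/
theorem class_upper_gen (K n : ℕ) : f n ≤ ∑ m ∈ R K n, mx (W K (n / m)) := by
  classical
  obtain ⟨A, hA, hAd, hc⟩ := exists_mx (Finset.Icc 1 n)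
  have hf : f n = A.card := by
    unfold f
    rw [← hc]
  rw [hf]
  let B : ℕ → Finset ℕ := fun m => (W K (n / m)).filter (fun s => m * s ∈ A)
  have hsub : A ⊆ (R K n).biUnion (fun m => (B m).image (fun s => m * s)) := by
    intro a ha
    have han := Finset.mem_Icc.1 (hA ha)
    obtain ⟨m, s, h2, hm, hs, h3, h4⟩ := decomp K a (by omega)
    have hm1 : 1 ≤ m := Nat.one_le_iff_ne_zero.2 hm
    have hs1 : 1 ≤ s := Nat.one_le_iff_ne_zero.2 hs
    have hma : m ≤ a := by rw [h2]; exact Nat.le_mul_of_pos_right m hs1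
    refine Finset.mem_biUnion.2 ⟨m, mem_R.2 ⟨⟨hm1, hma.trans han.2⟩, h3⟩,
      Finset.mem_image.2 ⟨s, ?_, h2.symm⟩⟩
    refine Finset.mem_filter.2 ⟨mem_W.2 ⟨⟨hs1, ?_⟩, h4⟩, ?_⟩
    · rw [Nat.le_div_iff_mul_le hm1, Nat.mul_comm, ← h2]
      exact han.2
    · rw [← h2]
      exact ha
  have hB : ∀ m ∈ R K n, (B m).card ≤ mx (W K (n / m)) := by
    intro m hm
    have hm1 : 0 < m := (mem_R.1 hm).1.1
    refine card_le_mx ?_ (Finset.filter_subset _ _)
    intro s hs t ht u hu hst hsu htu hd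
    have hs' := (Finset.mem_filter.1 hs).2
    have ht' := (Finset.mem_filter.1 ht).2
    have hu' := (Finset.mem_filter.1 hu).2
    refine hAd (m * s) hs' (m * t) ht' (m * u) hu' ?_ ?_ ?_
      ⟨Nat.mul_dvd_mul_left m hd.1, Nat.mul_dvd_mul_left m hd.2⟩
    · intro h
      exact hst (Nat.eq_of_mul_eq_mul_left hm1 h)
    · intro h
      exact hsu (Nat.eq_of_mul_eq_mul_left hm1 h)
    · intro h
      exact htu (Nat.eq_of_mul_eq_mul_left hm1 h)
  calc A.card ≤ ((R K n).biUnion (fun m => (B m).image (fun s => m * s))).card :=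
        Finset.card_le_card hsub
    _ ≤ ∑ m ∈ R K n, ((B m).image (fun s => m * s)).card := Finset.card_biUnion_le
    _ ≤ ∑ m ∈ R K n, mx (W K (n / m)) :=
        Finset.sum_le_sum (fun m hm => Finset.card_image_le.trans (hB m hm))

/-- the bound by the classes modulo 2 and 3 -/
theorem class_upper (n : ℕ) : f n ≤ ∑ m ∈ R 4 n, mx (W 4 (n / m)) := class_upper_gen 4 n

end Pool.Agent.N67.DD
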